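import Mathlib

set_option autoImplicit false

/-!
# MP_32da07_an: no lower bound for the Kobayashi distance in terms of the boundary distance

We show that both estimates asked about in Q1 fail, and in fact that no lower bound for
`k_D(z₀, z)` by a function of `d_D(z)` tending to infinity at `0` can hold near all boundary
points of all bounded pseudoconvex Reinhardt domains, whatever the value of `N(ζ₀)` is.
The examples are cusps `|z₁| < r(|z₂|)` with `r` decaying fast, times punctured discs.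
-/

namespace Pool.Agent.Results.MP_32da07_an.NoLowerBound

open Metric Filter Topology Set

/-- `ℂⁿ` with the Euclidean norm. -/
abbrev Cn (n : ℕ) : Type := EuclideanSpace ℂ (Fin n)

/-- The open unit disc in `ℂ`. -/
abbrev disc : Set ℂ := ball (0 : ℂ) 1

/-- The Poincaré distance of the unit disc, normalised so that
`p(0, r) = (1/2) log ((1 + r) / (1 - r))`. -/
noncomputable def poincareDist (a b : ℂ) : ℝ :=
  (1 / 2) * Real.log ((1 + ‖(a - b) / (1 - (starRingEnd ℂ) b * a)‖) /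
    (1 - ‖(a - b) / (1 - (starRingEnd ℂ) b * a)‖))

/-- `DiscChain D z w L` means that `z` and `w` are joined by a finite chain of holomorphic discs
`f_i : disc → D` with `f_i(a_i) = p_i`, `f_i(b_i) = p_{i+1}`, `p_0 = z`, `p_m = w`, and
`L = ∑ p(a_i, b_i)`. -/
inductive DiscChain {n : ℕ} (D : Set (Cn n)) : Cn n → Cn n → ℝ → Prop
  | nil (z : Cn n) (hz : z ∈ D) : DiscChain D z z 0
  | cons (f : ℂ → Cn n) (hf : DifferentiableOn ℂ f disc) (hmaps : MapsTo f disc D)
      (a b : ℂ) (ha : a ∈ disc) (hb : b ∈ disc) (w : Cn n) (L : ℝ)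
      (h : DiscChain D (f b) w L) : DiscChain D (f a) w (poincareDist a b + L)

/-- The Kobayashi pseudodistance `k_D(z, w)`: the infimum (taken in `[-∞, +∞]`; it is a
nonnegative real number when `D` is a domain) of the lengths `L` of the chains of holomorphic
discs in `D` joining `z` to `w`. -/
noncomputable def kobayashiDist {n : ℕ} (D : Set (Cn n)) (z w : Cn n) : EReal :=
  ⨅ (L : ℝ) (_ : DiscChain D z w L), (L : EReal)

/-- Holomorphic convexity of an open set `D ⊆ ℂⁿ`: the hull of every compact subset of `D` with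
respect to the functions holomorphic on `D` is compact. For open sets of `ℂⁿ` this is equivalent
to pseudoconvexity. -/
def HolomorphicallyConvex {n : ℕ} (D : Set (Cn n)) : Prop :=
  ∀ K ⊆ D, IsCompact K → IsCompact {z | z ∈ D ∧ ∀ f : Cn n → ℂ, DifferentiableOn ℂ f D →
    ∀ M : ℝ, (∀ x ∈ K, ‖f x‖ ≤ M) → ‖f z‖ ≤ M}

/-- Pseudoconvex Reinhardt domains in `ℂⁿ`. -/
structure IsPseudoconvexReinhardtDomain {n : ℕ} (D : Set (Cn n)) : Prop where
  isOpen : IsOpen D
  isConnected : IsConnected D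
  rotation : ∀ θ : Fin n → ℝ, ∀ z ∈ D,
    (WithLp.toLp 2 fun j => Complex.exp (θ j * Complex.I) * z j : Cn n) ∈ D
  holConvex : HolomorphicallyConvex D

/-- `N(ζ) = #{j : ζ_j = 0 and D ∩ V_j = ∅}`, where `V_j = {z : z_j = 0}`. -/
noncomputable def bigN {n : ℕ} (D : Set (Cn n)) (ζ : Cn n) : ℕ :=
  Set.ncard {j : Fin n | ζ j = 0 ∧ D ∩ {z | z j = 0} = ∅}

/-! ### Auxiliary lemmas -/

lemma poincareDist_zero_left {r : ℝ} (hr : 0 ≤ r) :
    poincareDist 0 (r : ℂ) = (1 / 2) * Real.log ((1 + r) / (1 - r)) := by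
  unfold poincareDist
  simp [abs_of_nonneg hr]

lemma kobayashiDist_le {n : ℕ} {D : Set (Cn n)} {z w : Cn n} {L : ℝ}
    (h : DiscChain D z w L) : kobayashiDist D z w ≤ (L : EReal) :=
  iInf₂_le L h

/-- The point `(a, b, w, …, w)` of `ℂ^{N+2}`. -/
noncomputable def pt (N : ℕ) (a b w : ℂ) : Cn (N + 2) :=
  WithLp.toLp 2 (Fin.cons a (Fin.cons b (fun _ => w)))

@[simp] lemma pt_zero (N : ℕ) (a b w : ℂ) : pt N a b w 0 = a := rfl

@[simp] lemma pt_one (N : ℕ) (a b w : ℂ) : pt N a b w 1 = b := rfl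

@[simp] lemma pt_succ (N : ℕ) (a b w : ℂ) (j : Fin N) : pt N a b w j.succ.succ = w := rfl

lemma differentiableOn_pt (N : ℕ) {f g h : ℂ → ℂ} {U : Set ℂ} (hf : DifferentiableOn ℂ f U)
    (hg : DifferentiableOn ℂ g U) (hh : DifferentiableOn ℂ h U) :
    DifferentiableOn ℂ (fun l => pt N (f l) (g l) (h l)) U := by
  rw [differentiableOn_euclidean]
  intro i
  refine Fin.cases ?_ (fun i => Fin.cases ?_ (fun j => ?_) i) i
  · exact hf
  · exact hg
  · exact hh

/-- The parameters `s_ν = (ν+1)/(ν+2)`. -/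
noncomputable def sv (ν : ℕ) : ℝ := ((ν : ℝ) + 1) / ((ν : ℝ) + 2)

/-- The parameters `t_ν = ν/(ν+2)`. -/
noncomputable def tv (ν : ℕ) : ℝ := (ν : ℝ) / ((ν : ℝ) + 2)

lemma sv_pos (ν : ℕ) : 0 < sv ν := by unfold sv; positivity

lemma sv_lt_one (ν : ℕ) : sv ν < 1 := by
  unfold sv; rw [div_lt_one (by positivity)]; linarith

lemma tv_nonneg (ν : ℕ) : 0 ≤ tv ν := by unfold tv; positivity

lemma tv_lt_sv (ν : ℕ) : tv ν < sv ν := by
  unfold tv sv; gcongr; linarith

lemma tv_mono : Monotone tv := by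
  intro a b hab
  unfold tv
  have h : (a : ℝ) ≤ b := by exact_mod_cast hab
  rw [div_le_div_iff₀ (by positivity) (by positivity)]
  nlinarith

lemma tendsto_tv : Tendsto tv atTop (𝓝 1) := by
  have h : Tendsto (fun n : ℕ => 1 - 2 * (1 / ((n : ℝ) + 2))) atTop (𝓝 (1 - 2 * 0)) := by
    apply tendsto_const_nhds.sub
    apply Tendsto.const_mul
    have := (tendsto_add_atTop_iff_nat 1).mpr (tendsto_one_div_add_atTop_nhds_zero_nat (𝕜 := ℝ))
    refine this.congr fun n => ?_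
    push_cast
    ring
  rw [mul_zero, sub_zero] at h
  refine h.congr fun n => ?_
  unfold tv
  field_simp
  ring

lemma tendsto_sv : Tendsto sv atTop (𝓝 1) := by
  have h : Tendsto (fun n : ℕ => 1 - (1 / ((n : ℝ) + 2))) atTop (𝓝 (1 - 0)) := by
    apply tendsto_const_nhds.sub
    have := (tendsto_add_atTop_iff_nat 1).mpr (tendsto_one_div_add_atTop_nhds_zero_nat (𝕜 := ℝ))
    refine this.congr fun n => ?_
    push_cast
    ring
  rw [sub_zero] at h
  refine h.congr fun n => ?_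
  unfold sv
  field_simp
  ring

/-- The cusp domain. -/
def dom (N : ℕ) (H : ℕ → ℝ) (m : ℕ → ℕ) : Set (Cn (N + 2)) :=
  {z | ‖z 0‖ < 1 ∧ ‖z 1‖ < 1 ∧ (∀ ν, H ν * (‖z 0‖ * ‖z 1‖ ^ m ν) < sv ν ^ m ν) ∧
    ∀ j : Fin N, 0 < ‖z j.succ.succ‖ ∧ ‖z j.succ.succ‖ < 1}

/-- The growth condition relating the exponents and the heights. -/
def Good (H : ℕ → ℝ) (m : ℕ → ℕ) : Prop :=
  ∀ ν, 1 ≤ H ν ∧ H ν * (tv ν) ^ m ν ≤ sv ν ^ m ν

lemma exists_exponents (H : ℕ → ℝ) (hH : ∀ ν, 1 ≤ H ν) : ∃ m : ℕ → ℕ, Good H m := by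
  have h : ∀ ν, ∃ m : ℕ, H ν * (tv ν) ^ m ≤ sv ν ^ m := by
    intro ν
    have h1 : tv ν / sv ν < 1 := by rw [div_lt_one (sv_pos ν)]; exact tv_lt_sv ν
    have h2 : 0 ≤ tv ν / sv ν := div_nonneg (tv_nonneg ν) (sv_pos ν).le
    have h3 : Tendsto (fun m : ℕ => H ν * (tv ν / sv ν) ^ m) atTop (𝓝 (H ν * 0)) :=
      (tendsto_pow_atTop_nhds_zero_of_lt_one h2 h1).const_mul _
    rw [mul_zero] at h3
    obtain ⟨m, hm⟩ := (h3.eventually_lt_const one_pos).exists
    refine ⟨m, ?_⟩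
    rw [div_pow, mul_div_assoc', div_lt_one (pow_pos (sv_pos ν) m)] at hm
    exact hm.le
  choose m hm using h
  exact ⟨m, fun ν => ⟨hH ν, hm ν⟩⟩

lemma auto_cond {H : ℕ → ℝ} {m : ℕ → ℕ} (hg : Good H m) {a b : ℝ} (ha0 : 0 ≤ a) (ha : a < 1)
    (hb0 : 0 ≤ b) (ν : ℕ) (hb : b ≤ tv ν) : H ν * (a * b ^ m ν) < sv ν ^ m ν := by
  obtain ⟨h1, h2⟩ := hg ν
  have hpow : b ^ m ν ≤ tv ν ^ m ν := pow_le_pow_left₀ hb0 hb _
  have hb' : 0 ≤ b ^ m ν := pow_nonneg hb0 _
  rcases eq_or_lt_of_le ha0 with h0 | h0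
  · rw [← h0, zero_mul, mul_zero]
    exact pow_pos (sv_pos ν) _
  · by_cases hbz : b ^ m ν = 0
    · rw [hbz, mul_zero, mul_zero]
      exact pow_pos (sv_pos ν) _
    · have hbpos : 0 < b ^ m ν := lt_of_le_of_ne hb' (Ne.symm hbz)
      calc H ν * (a * b ^ m ν) < H ν * (1 * b ^ m ν) := by
            apply mul_lt_mul_of_pos_left _ (by linarith)
            exact mul_lt_mul_of_pos_right ha hbpos
        _ ≤ H ν * tv ν ^ m ν := by
            rw [one_mul]
            exact mul_le_mul_of_nonneg_left hpow (by linarith)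
        _ ≤ sv ν ^ m ν := h2

lemma continuous_coord {n : ℕ} (i : Fin n) : Continuous fun z : Cn n => z i := by fun_prop

lemma isOpen_dom (N : ℕ) {H : ℕ → ℝ} {m : ℕ → ℕ} (hg : Good H m) : IsOpen (dom N H m) := by
  have heq : dom N H m = ⋃ k : ℕ, ({z : Cn (N + 2) | ‖z 0‖ < 1} ∩ {z | ‖z 1‖ < tv k} ∩
      (⋂ ν ∈ Finset.range k, {z | H ν * (‖z 0‖ * ‖z 1‖ ^ m ν) < sv ν ^ m ν}) ∩
      (⋂ j : Fin N, {z | 0 < ‖z j.succ.succ‖ ∧ ‖z j.succ.succ‖ < 1})) := by
    ext z
    simp only [dom, mem_ofPred_eq, mem_iUnion, mem_inter_iff, mem_iInter, Finset.mem_range]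
    constructor
    · rintro ⟨h0, h1, h2, h3⟩
      obtain ⟨k, hk⟩ := (tendsto_tv.eventually_const_lt h1).exists
      exact ⟨k, ⟨⟨⟨h0, hk⟩, fun ν _ => h2 ν⟩, h3⟩⟩
    · rintro ⟨k, ⟨⟨⟨h0, h1⟩, h2⟩, h3⟩⟩
      refine ⟨h0, h1.trans ((tv_lt_sv k).trans (sv_lt_one k)), fun ν => ?_, h3⟩
      by_cases hν : ν < k
      · exact h2 ν hν
      · exact auto_cond hg (norm_nonneg _) h0 (norm_nonneg _) ν
          (h1.le.trans (tv_mono (not_lt.mp hν)))
  rw [heq]
  apply isOpen_iUnion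
  intro k
  have c0 := (continuous_coord (0 : Fin (N + 2))).norm
  have c1 := (continuous_coord (1 : Fin (N + 2))).norm
  apply IsOpen.inter (IsOpen.inter (IsOpen.inter _ _) _) _
  · exact isOpen_lt c0 continuous_const
  · exact isOpen_lt c1 continuous_const
  · apply isOpen_biInter_finset
    intro ν _
    exact isOpen_lt (continuous_const.mul (c0.mul (c1.pow _))) continuous_const
  · apply isOpen_iInter_of_finite
    intro j
    have cj := (continuous_coord (j.succ.succ : Fin (N + 2))).norm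
    exact (isOpen_lt continuous_const cj).inter (isOpen_lt cj continuous_const)

lemma rotation_dom (N : ℕ) (H : ℕ → ℝ) (m : ℕ → ℕ) (θ : Fin (N + 2) → ℝ) (z : Cn (N + 2))
    (hz : z ∈ dom N H m) :
    (WithLp.toLp 2 fun j => Complex.exp (θ j * Complex.I) * z j : Cn (N + 2)) ∈ dom N H m := by
  have h : ∀ j, ‖(WithLp.toLp 2 fun j => Complex.exp (θ j * Complex.I) * z j : Cn (N + 2)) j‖
      = ‖z j‖ := by
    intro j
    show ‖Complex.exp (θ j * Complex.I) * z j‖ = ‖z j‖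
    rw [norm_mul, Complex.norm_exp_ofReal_mul_I, one_mul]
  obtain ⟨h0, h1, h2, h3⟩ := hz
  refine ⟨?_, ?_, ?_, ?_⟩
  · rw [h]; exact h0
  · rw [h]; exact h1
  · intro ν; rw [h, h]; exact h2 ν
  · intro j; rw [h]; exact h3 j

lemma base_mem (N : ℕ) {H : ℕ → ℝ} {m : ℕ → ℕ} {b w : ℂ} (hb : ‖b‖ < 1) (hw0 : 0 < ‖w‖)
    (hw : ‖w‖ < 1) : pt N 0 b w ∈ dom N H m := by
  refine ⟨by simp, by simpa using hb, fun ν => ?_, fun j => ?_⟩
  · rw [pt_zero, norm_zero, zero_mul, mul_zero]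
    exact pow_pos (sv_pos ν) _
  · rw [pt_succ]; exact ⟨hw0, hw⟩

lemma isPreconnected_dom (N : ℕ) {H : ℕ → ℝ} {m : ℕ → ℕ} (hg : Good H m) :
    IsPreconnected (dom N H m) := by
  apply isPreconnected_of_forall (pt N 0 0 (1 / 2))
  intro z hz
  obtain ⟨h0, h1, h2, h3⟩ := hz
  -- the path
  let γ : ℝ → Cn (N + 2) := fun t => WithLp.toLp 2 (Fin.cons ((t : ℂ) * z 0)
    (Fin.cons ((t : ℂ) * z 1) (fun j : Fin N => Complex.exp ((t : ℂ) * Complex.log (z j.succ.succ)
      + (1 - (t : ℂ)) * (-(Real.log 2 : ℂ))))))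
  have hγ : Continuous γ := by
    apply (PiLp.continuous_toLp 2 _).comp
    apply continuous_pi
    intro i
    refine Fin.cases ?_ (fun i => Fin.cases ?_ (fun j => ?_) i) i
    · show Continuous fun t : ℝ => (t : ℂ) * z 0
      fun_prop
    · show Continuous fun t : ℝ => (t : ℂ) * z 1
      fun_prop
    · show Continuous fun t : ℝ => Complex.exp ((t : ℂ) * Complex.log (z j.succ.succ)
        + (1 - (t : ℂ)) * (-(Real.log 2 : ℂ)))
      fun_prop
  have hlog2 : 0 < Real.log 2 := Real.log_pos (by norm_num)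
  refine ⟨γ '' Icc 0 1, ?_, ⟨0, by simp, ?_⟩, ⟨1, by simp, ?_⟩,
    (isPreconnected_Icc).image _ hγ.continuousOn⟩
  · rintro _ ⟨t, ⟨ht0, ht1⟩, rfl⟩
    have e0 : ‖γ t 0‖ = t * ‖z 0‖ := by
      show ‖(t : ℂ) * z 0‖ = _
      rw [norm_mul, Complex.norm_real, Real.norm_eq_abs, abs_of_nonneg ht0]
    have e1 : ‖γ t 1‖ = t * ‖z 1‖ := by
      show ‖(t : ℂ) * z 1‖ = _
      rw [norm_mul, Complex.norm_real, Real.norm_eq_abs, abs_of_nonneg ht0]
    have l0 : t * ‖z 0‖ ≤ ‖z 0‖ := mul_le_of_le_one_left (norm_nonneg _) ht1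
    have l1 : t * ‖z 1‖ ≤ ‖z 1‖ := mul_le_of_le_one_left (norm_nonneg _) ht1
    refine ⟨?_, ?_, ?_, ?_⟩
    · rw [e0]; linarith
    · rw [e1]; linarith
    · intro ν
      rw [e0, e1]
      refine lt_of_le_of_lt ?_ (h2 ν)
      have hH : 0 ≤ H ν := by linarith [(hg ν).1]
      apply mul_le_mul_of_nonneg_left _ hH
      apply mul_le_mul l0 _ (by positivity) (norm_nonneg _)
      exact pow_le_pow_left₀ (by positivity) l1 _
    · intro j
      have e2 : ‖γ t j.succ.succ‖ = Real.exp (t * Real.log ‖z j.succ.succ‖ +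
          (1 - t) * (-Real.log 2)) := by
        show ‖Complex.exp ((t : ℂ) * Complex.log (z j.succ.succ)
          + (1 - (t : ℂ)) * (-(Real.log 2 : ℂ)))‖ = _
        rw [Complex.norm_exp]
        congr 1
        simp [Complex.log_re]
      rw [e2]
      refine ⟨Real.exp_pos _, ?_⟩
      rw [Real.exp_lt_one_iff]
      have hneg : Real.log ‖z j.succ.succ‖ < 0 := Real.log_neg (h3 j).1 (h3 j).2
      rcases eq_or_lt_of_le ht0 with h | h
      · rw [← h]; linarith
      · nlinarith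
  · show γ 0 = pt N 0 0 (1 / 2)
    have hexp : Complex.exp (-(Real.log 2 : ℂ)) = 1 / 2 := by
      rw [← Complex.ofReal_neg, ← Complex.ofReal_exp, Real.exp_neg, Real.exp_log (by norm_num)]
      norm_num
    ext i
    refine Fin.cases ?_ (fun i => Fin.cases ?_ (fun j => ?_) i) i
    · show ((0 : ℝ) : ℂ) * z 0 = 0
      simp
    · show ((0 : ℝ) : ℂ) * z 1 = 0
      simp
    · show Complex.exp (((0 : ℝ) : ℂ) * Complex.log (z j.succ.succ)
        + (1 - ((0 : ℝ) : ℂ)) * (-(Real.log 2 : ℂ))) = 1 / 2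
      rw [Complex.ofReal_zero, zero_mul, zero_add, sub_zero, one_mul, hexp]
  · show γ 1 = z
    ext i
    refine Fin.cases ?_ (fun i => Fin.cases ?_ (fun j => ?_) i) i
    · show ((1 : ℝ) : ℂ) * z 0 = z 0
      simp
    · show ((1 : ℝ) : ℂ) * z 1 = z 1
      simp
    · show Complex.exp (((1 : ℝ) : ℂ) * Complex.log (z j.succ.succ)
        + (1 - ((1 : ℝ) : ℂ)) * (-(Real.log 2 : ℂ))) = z j.succ.succ
      have hne : z j.succ.succ ≠ 0 := norm_pos_iff.mp (h3 j).1
      rw [Complex.ofReal_one, one_mul, sub_self, zero_mul, add_zero, Complex.exp_log hne]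

lemma bounded_dom (N : ℕ) (H : ℕ → ℝ) (m : ℕ → ℕ) : Bornology.IsBounded (dom N H m) := by
  rw [isBounded_iff_forall_norm_le]
  refine ⟨(N : ℝ) + 2, fun z hz => ?_⟩
  obtain ⟨h0, h1, _, h3⟩ := hz
  have hall : ∀ i, ‖z i‖ ≤ 1 := by
    intro i
    refine Fin.cases ?_ (fun i => Fin.cases ?_ (fun j => ?_) i) i
    · exact h0.le
    · exact h1.le
    · exact (h3 j).2.le
  rw [EuclideanSpace.norm_eq]
  have h4 : ∑ i, ‖z i‖ ^ 2 ≤ ((N : ℝ) + 2) := by
    calc ∑ i, ‖z i‖ ^ 2 ≤ ∑ _i : Fin (N + 2), (1 : ℝ) := by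
          apply Finset.sum_le_sum
          intro i _
          exact pow_le_one₀ (norm_nonneg _) (hall i)
      _ = (N : ℝ) + 2 := by simp
  calc Real.sqrt (∑ i, ‖z i‖ ^ 2) ≤ Real.sqrt (((N : ℝ) + 2) ^ 2) := by
        apply Real.sqrt_le_sqrt
        nlinarith [(Nat.cast_nonneg N : (0 : ℝ) ≤ N)]
    _ = (N : ℝ) + 2 := Real.sqrt_sq (by positivity)

lemma holConvex_dom (N : ℕ) {H : ℕ → ℝ} {m : ℕ → ℕ} (hg : Good H m) :
    HolomorphicallyConvex (dom N H m) := by
  intro K hKD hK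
  rcases K.eq_empty_or_nonempty with hKe | hKne
  · -- empty compact set
    convert isCompact_empty
    ext z
    simp only [mem_ofPred_eq, mem_empty_iff_false, iff_false, not_and]
    intro _ hcon
    have := hcon (fun _ => 0) (differentiableOn_const 0) (-1) (by simp [hKe])
    norm_num at this
  -- maxima of the relevant functions on `K`
  have hmax : ∀ g : Cn (N + 2) → ℝ, Continuous g → ∃ x ∈ K, ∀ y ∈ K, g y ≤ g x := by
    intro g hgc
    obtain ⟨x, hx, hx'⟩ := hK.exists_isMaxOn hKne hgc.continuousOn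
    exact ⟨x, hx, fun y hy => hx' hy⟩
  have hmin : ∀ g : Cn (N + 2) → ℝ, Continuous g → ∃ x ∈ K, ∀ y ∈ K, g x ≤ g y := by
    intro g hgc
    obtain ⟨x, hx, hx'⟩ := hK.exists_isMinOn hKne hgc.continuousOn
    exact ⟨x, hx, fun y hy => hx' hy⟩
  have c : ∀ i : Fin (N + 2), Continuous fun z : Cn (N + 2) => ‖z i‖ :=
    fun i => (continuous_coord i).norm
  obtain ⟨a0, ha0, ha0'⟩ := hmax _ (c 0)
  obtain ⟨a1, ha1, ha1'⟩ := hmax _ (c 1)
  have hex : ∀ ν, ∃ x ∈ K, ∀ y ∈ K, ‖y 0‖ * ‖y 1‖ ^ m ν ≤ ‖x 0‖ * ‖x 1‖ ^ m ν :=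
    fun ν => hmax _ ((c 0).mul ((c 1).pow _))
  choose xν hxν hxν' using hex
  have hexR : ∀ j : Fin N, ∃ x ∈ K, ∀ y ∈ K, ‖y j.succ.succ‖ ≤ ‖x j.succ.succ‖ :=
    fun j => hmax _ (c _)
  choose xR hxR hxR' using hexR
  have hexr : ∀ j : Fin N, ∃ x ∈ K, ∀ y ∈ K, ‖x j.succ.succ‖ ≤ ‖y j.succ.succ‖ :=
    fun j => hmin _ (c _)
  choose xr hxr hxr' using hexr
  -- the compact set `T`
  let T : Set (Cn (N + 2)) := {z | ‖z 0‖ ≤ ‖a0 0‖} ∩ {z | ‖z 1‖ ≤ ‖a1 1‖} ∩
    (⋂ ν, {z | ‖z 0‖ * ‖z 1‖ ^ m ν ≤ ‖xν ν 0‖ * ‖xν ν 1‖ ^ m ν}) ∩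
    (⋂ j : Fin N, {z | ‖xr j j.succ.succ‖ ≤ ‖z j.succ.succ‖ ∧
      ‖z j.succ.succ‖ ≤ ‖xR j j.succ.succ‖})
  have hTclosed : IsClosed T := by
    apply IsClosed.inter (IsClosed.inter (IsClosed.inter _ _) _) _
    · exact isClosed_le (c 0) continuous_const
    · exact isClosed_le (c 1) continuous_const
    · apply isClosed_iInter
      intro ν
      exact isClosed_le ((c 0).mul ((c 1).pow _)) continuous_const
    · apply isClosed_iInter
      intro j
      exact (isClosed_le continuous_const (c _)).inter (isClosed_le (c _) continuous_const)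
  have hTD : T ⊆ dom N H m := by
    rintro z ⟨⟨⟨h0, h1⟩, h2⟩, h3⟩
    have h0' : ‖z 0‖ ≤ ‖a0 0‖ := h0
    have h1' : ‖z 1‖ ≤ ‖a1 1‖ := h1
    rw [mem_iInter] at h2 h3
    refine ⟨lt_of_le_of_lt h0' (hKD ha0).1, lt_of_le_of_lt h1' (hKD ha1).2.1, fun ν => ?_,
      fun j => ?_⟩
    · have h2' : ‖z 0‖ * ‖z 1‖ ^ m ν ≤ ‖xν ν 0‖ * ‖xν ν 1‖ ^ m ν := h2 ν
      have hH : 0 ≤ H ν := by linarith [(hg ν).1]
      exact lt_of_le_of_lt (mul_le_mul_of_nonneg_left h2' hH) ((hKD (hxν ν)).2.2.1 ν)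
    · have h3' : ‖xr j j.succ.succ‖ ≤ ‖z j.succ.succ‖ ∧
        ‖z j.succ.succ‖ ≤ ‖xR j j.succ.succ‖ := h3 j
      exact ⟨lt_of_lt_of_le ((hKD (hxr j)).2.2.2 j).1 h3'.1,
        lt_of_le_of_lt h3'.2 ((hKD (hxR j)).2.2.2 j).2⟩
  have hTcompact : IsCompact T :=
    Metric.isCompact_of_isClosed_isBounded hTclosed ((bounded_dom N H m).subset hTD)
  have hdiff : ∀ i : Fin (N + 2), Differentiable ℂ fun z : Cn (N + 2) => z i := by
    intro i; fun_prop
  -- the hull is contained in `T`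
  have hsub : {z | z ∈ dom N H m ∧ ∀ f : Cn (N + 2) → ℂ, DifferentiableOn ℂ f (dom N H m) →
      ∀ M : ℝ, (∀ x ∈ K, ‖f x‖ ≤ M) → ‖f z‖ ≤ M} ⊆ T := by
    rintro z ⟨hzD, hz⟩
    refine ⟨⟨⟨?_, ?_⟩, ?_⟩, ?_⟩
    · exact hz _ (hdiff 0).differentiableOn _ ha0'
    · exact hz _ (hdiff 1).differentiableOn _ ha1'
    · rw [mem_iInter]
      intro ν
      have := hz (fun z => z 0 * z 1 ^ m ν) ((hdiff 0).mul ((hdiff 1).pow _)).differentiableOn
        (‖xν ν 0‖ * ‖xν ν 1‖ ^ m ν) (by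
          intro x hx
          rw [norm_mul, norm_pow]
          exact hxν' ν x hx)
      rw [norm_mul, norm_pow] at this
      exact this
    · rw [mem_iInter]
      intro j
      constructor
      · have hpos : 0 < ‖xr j j.succ.succ‖ := ((hKD (hxr j)).2.2.2 j).1
        have hd : DifferentiableOn ℂ (fun z : Cn (N + 2) => (z j.succ.succ)⁻¹) (dom N H m) := by
          apply (hdiff j.succ.succ).differentiableOn.inv
          intro x hx
          exact norm_pos_iff.mp (hx.2.2.2 j).1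
        have h5 := hz _ hd (‖xr j j.succ.succ‖⁻¹) (by
          intro x hx
          rw [norm_inv]
          exact inv_anti₀ hpos (hxr' j x hx))
        rw [norm_inv] at h5
        exact (inv_le_inv₀ (hzD.2.2.2 j).1 hpos).mp h5
      · exact hz _ (hdiff j.succ.succ).differentiableOn _ (hxR' j)
  apply hTcompact.of_isClosed_subset _ hsub
  -- the hull is closed
  rw [← closure_subset_iff_isClosed]
  intro z hz
  have hzT : z ∈ T := hTclosed.closure_subset_iff.mpr hsub hz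
  have hzD : z ∈ dom N H m := hTD hzT
  refine ⟨hzD, fun f hf M hM => ?_⟩
  obtain ⟨u, hu, hulim⟩ := mem_closure_iff_seq_limit.mp hz
  have hcont : ContinuousAt f z :=
    (hf.continuousOn).continuousAt ((isOpen_dom N hg).mem_nhds hzD)
  have hlim : Tendsto (fun n => ‖f (u n)‖) atTop (𝓝 ‖f z‖) := (hcont.tendsto.comp hulim).norm
  exact le_of_tendsto' hlim fun n => (hu n).2 f hf M hM

lemma continuous_pt (N : ℕ) : Continuous fun p : ℂ × ℂ × ℂ => pt N p.1 p.2.1 p.2.2 := by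
  apply (PiLp.continuous_toLp 2 _).comp
  apply continuous_pi
  intro i
  refine Fin.cases ?_ (fun i => Fin.cases ?_ (fun j => ?_) i) i
  · exact continuous_fst
  · exact continuous_snd.fst
  · exact continuous_snd.snd

/-- The points at which the lower estimates fail. -/
noncomputable def zv (N ν : ℕ) : Cn (N + 2) := pt N 0 (sv ν) ((1 / 2) ^ (ν + 2))

lemma tendsto_zv (N : ℕ) : Tendsto (zv N) atTop (𝓝 (pt N 0 1 0)) := by
  have h1 : Tendsto (fun ν => ((sv ν : ℝ) : ℂ)) atTop (𝓝 ((1 : ℝ) : ℂ)) :=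
    (Complex.continuous_ofReal.tendsto _).comp tendsto_sv
  rw [Complex.ofReal_one] at h1
  have h2 : Tendsto (fun ν : ℕ => ((1 / 2 : ℂ)) ^ (ν + 2)) atTop (𝓝 0) := by
    apply (tendsto_add_atTop_iff_nat 2).mpr
    apply tendsto_pow_atTop_nhds_zero_of_norm_lt_one
    norm_num
  exact ((continuous_pt N).tendsto (0, 1, 0)).comp
    (tendsto_const_nhds.prodMk_nhds (h1.prodMk_nhds h2))

lemma zv_mem (N : ℕ) (H : ℕ → ℝ) (m : ℕ → ℕ) (ν : ℕ) : zv N ν ∈ dom N H m := by
  apply base_mem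
  · rw [Complex.norm_real, Real.norm_eq_abs, abs_of_pos (sv_pos ν)]; exact sv_lt_one ν
  · rw [norm_pow]
    apply pow_pos
    norm_num
  · rw [norm_pow]
    apply pow_lt_one₀ (norm_nonneg _) _ (by omega)
    norm_num

lemma zeta_notMem (N : ℕ) (H : ℕ → ℝ) (m : ℕ → ℕ) : pt N 0 1 0 ∉ dom N H m := by
  rintro ⟨_, h1, _⟩
  rw [pt_one, norm_one] at h1
  exact lt_irrefl _ h1

lemma bigN_dom (N : ℕ) (H : ℕ → ℝ) (m : ℕ → ℕ) : bigN (dom N H m) (pt N 0 1 0) = N := by
  unfold bigN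
  have heq : {j : Fin (N + 2) | pt N 0 1 0 j = 0 ∧ dom N H m ∩ {z | z j = 0} = ∅}
      = range fun j : Fin N => j.succ.succ := by
    ext i
    simp only [mem_ofPred_eq, mem_range]
    refine Fin.cases ?_ (fun i => Fin.cases ?_ (fun j => ?_) i) i
    · constructor
      · rintro ⟨_, h⟩
        exfalso
        have : pt N 0 0 (1 / 2) ∈ dom N H m ∩ {z : Cn (N + 2) | z 0 = 0} :=
          ⟨base_mem N (by simp) (by norm_num) (by norm_num), rfl⟩
        rw [h] at this
        exact this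
      · rintro ⟨j, hj⟩
        exact absurd hj (Fin.succ_ne_zero _)
    · constructor
      · rintro ⟨h, _⟩
        exact absurd h one_ne_zero
      · rintro ⟨j, hj⟩
        exact absurd (Fin.succ_injective _ hj) (Fin.succ_ne_zero _)
    · constructor
      · intro _
        exact ⟨j, rfl⟩
      · intro _
        refine ⟨rfl, ?_⟩
        rw [eq_empty_iff_forall_notMem]
        rintro z ⟨hz, hz0⟩
        have h1 := (hz.2.2.2 j).1
        have h2 : z j.succ.succ = 0 := hz0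
        rw [h2, norm_zero] at h1
        exact lt_irrefl _ h1
  have hinj : Function.Injective fun j : Fin N => j.succ.succ :=
    (Fin.succ_injective _).comp (Fin.succ_injective _)
  rw [heq, ← image_univ, ncard_image_of_injective _ hinj, ncard_univ]
  simp

/-- The auxiliary holomorphic covering of the punctured disc. -/
noncomputable def gg (l : ℂ) : ℂ := Complex.exp (-(Real.log 2 : ℂ) * ((1 + l) / (1 - l)))

lemma one_sub_ne_zero {l : ℂ} (hl : l ∈ disc) : 1 - l ≠ 0 := by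
  intro h
  rw [mem_ball_zero_iff] at hl
  have : l = 1 := (sub_eq_zero.mp h).symm
  rw [this, norm_one] at hl
  exact lt_irrefl _ hl

lemma gg_diff : DifferentiableOn ℂ gg disc := by
  intro l hl
  have := one_sub_ne_zero hl
  apply DifferentiableAt.differentiableWithinAt
  unfold gg
  fun_prop (disch := assumption)

lemma gg_norm {l : ℂ} (hl : l ∈ disc) : 0 < ‖gg l‖ ∧ ‖gg l‖ < 1 := by
  have hne := one_sub_ne_zero hl
  rw [mem_ball_zero_iff] at hl
  unfold gg
  rw [Complex.norm_exp]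
  refine ⟨Real.exp_pos _, ?_⟩
  rw [Real.exp_lt_one_iff]
  have hre : 0 < ((1 + l) / (1 - l)).re := by
    rw [Complex.div_re]
    have hns : 0 < Complex.normSq (1 - l) := Complex.normSq_pos.mpr hne
    rw [← add_div]
    apply div_pos _ hns
    have hl2 : Complex.normSq l < 1 := by
      rw [Complex.normSq_eq_norm_sq]; nlinarith [norm_nonneg l]
    simp only [Complex.normSq_apply, Complex.add_re, Complex.add_im, Complex.sub_re,
      Complex.sub_im, Complex.one_re, Complex.one_im] at *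
    nlinarith
  have hlog : 0 < Real.log 2 := Real.log_pos (by norm_num)
  rw [← Complex.ofReal_neg, Complex.re_ofReal_mul]
  nlinarith

/-- The upper bound for the Kobayashi distance. -/
lemma kob_upper (N : ℕ) (H : ℕ → ℝ) (m : ℕ → ℕ) (ν : ℕ) :
    kobayashiDist (dom N H m) (pt N 0 0 (1 / 2)) (zv N ν) ≤
      ((Real.log (2 * ((ν : ℝ) + 2)) : ℝ) : EReal) := by
  have hs := sv_pos ν
  have hs1 := sv_lt_one ν
  -- parameter with `gg lam = (1/2)^(ν+2)`
  set lam : ℝ := ((ν : ℝ) + 1) / ((ν : ℝ) + 3) with hlam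
  have hlam0 : 0 < lam := by rw [hlam]; positivity
  have hlam1 : lam < 1 := by rw [hlam, div_lt_one (by positivity)]; linarith
  have hratio : (1 + lam) / (1 - lam) = (ν : ℝ) + 2 := by
    have : 1 - lam ≠ 0 := by linarith
    rw [hlam] at this ⊢
    field_simp
    ring
  have hg0 : gg 0 = 1 / 2 := by
    unfold gg
    simp only [add_zero, sub_zero, div_one, mul_one]
    rw [← Complex.ofReal_neg, ← Complex.ofReal_exp, Real.exp_neg, Real.exp_log (by norm_num)]
    norm_num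
  have hgl : gg (lam : ℂ) = (1 / 2) ^ (ν + 2) := by
    unfold gg
    have e1 : -(Real.log 2 : ℂ) * ((1 + (lam : ℂ)) / (1 - (lam : ℂ)))
        = ((-(Real.log 2) * ((1 + lam) / (1 - lam)) : ℝ) : ℂ) := by push_cast; ring
    rw [e1, hratio, ← Complex.ofReal_exp]
    have e2 : Real.exp (-(Real.log 2) * ((ν : ℝ) + 2)) = (1 / 2) ^ (ν + 2) := by
      have : -(Real.log 2) * ((ν : ℝ) + 2) = ((ν + 2 : ℕ) : ℝ) * Real.log (1 / 2) := by
        rw [one_div, Real.log_inv]; push_cast; ring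
      rw [this, Real.exp_nat_mul, Real.exp_log (by norm_num)]
    rw [e2]
    push_cast
    ring
  have mem0 : (0 : ℂ) ∈ disc := by simp
  have mems : ((sv ν : ℝ) : ℂ) ∈ disc := by
    rw [mem_ball_zero_iff, Complex.norm_real, Real.norm_eq_abs, abs_of_pos hs]; exact hs1
  have meml : ((lam : ℝ) : ℂ) ∈ disc := by
    rw [mem_ball_zero_iff, Complex.norm_real, Real.norm_eq_abs, abs_of_pos hlam0]; exact hlam1
  -- second disc
  have chain2 : DiscChain (dom N H m) (pt N 0 (sv ν) (1 / 2)) (zv N ν)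
      (poincareDist 0 (lam : ℂ) + 0) := by
    have h := DiscChain.cons (D := dom N H m) (fun l => pt N 0 (sv ν) (gg l))
      (differentiableOn_pt N (differentiableOn_const _) (differentiableOn_const _) gg_diff)
      (fun l hl => base_mem N (by
        rw [Complex.norm_real, Real.norm_eq_abs, abs_of_pos hs]; exact hs1)
        (gg_norm hl).1 (gg_norm hl).2)
      0 (lam : ℂ) mem0 meml (zv N ν) 0 (by
        show DiscChain (dom N H m) (pt N 0 (sv ν) (gg (lam : ℂ))) (zv N ν) 0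
        rw [hgl]
        exact DiscChain.nil _ (zv_mem N H m ν))
    have h' : DiscChain (dom N H m) (pt N 0 (sv ν) (gg 0)) (zv N ν)
        (poincareDist 0 (lam : ℂ) + 0) := h
    rw [hg0] at h'
    exact h'
  -- first disc
  have chain1 : DiscChain (dom N H m) (pt N 0 0 (1 / 2)) (zv N ν)
      (poincareDist 0 ((sv ν : ℝ) : ℂ) + (poincareDist 0 (lam : ℂ) + 0)) :=
    DiscChain.cons (D := dom N H m) (fun l => pt N 0 l (1 / 2))
      (differentiableOn_pt N (differentiableOn_const _) differentiableOn_id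
        (differentiableOn_const _))
      (fun l hl => base_mem N (by rwa [mem_ball_zero_iff] at hl) (by norm_num) (by norm_num))
      0 ((sv ν : ℝ) : ℂ) mem0 mems (zv N ν) _ chain2
  refine (kobayashiDist_le chain1).trans ?_
  rw [EReal.coe_le_coe_iff, poincareDist_zero_left hs.le, poincareDist_zero_left hlam0.le, hratio, add_zero]
  have hν : (0 : ℝ) < (ν : ℝ) + 2 := by positivity
  have h1 : (1 + sv ν) / (1 - sv ν) ≤ 2 * ((ν : ℝ) + 2) := by
    have e : 1 - sv ν = 1 / ((ν : ℝ) + 2) := by unfold sv; field_simp; ring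
    rw [e, div_div_eq_mul_div, div_one]
    apply mul_le_mul_of_nonneg_right _ hν.le
    linarith
  have h2 : Real.log ((1 + sv ν) / (1 - sv ν)) ≤ Real.log (2 * ((ν : ℝ) + 2)) := by
    apply Real.log_le_log _ h1
    apply div_pos <;> linarith
  have h3 : Real.log ((ν : ℝ) + 2) ≤ Real.log (2 * ((ν : ℝ) + 2)) := by
    apply Real.log_le_log hν; linarith
  linarith

/-- The upper bound for the boundary distance. -/
lemma dist_upper (N : ℕ) {H : ℕ → ℝ} {m : ℕ → ℕ} (hg : Good H m) (ν : ℕ) :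
    0 < infDist (zv N ν) (frontier (dom N H m)) ∧
      infDist (zv N ν) (frontier (dom N H m)) ≤ 1 / H ν := by
  have hopen := isOpen_dom N hg
  have hmem := zv_mem N H m ν
  have hH : 0 < H ν := by linarith [(hg ν).1]
  -- a point outside
  set y : Cn (N + 2) := pt N ((1 / H ν : ℝ) : ℂ) (sv ν) ((1 / 2) ^ (ν + 2)) with hy
  have hyD : y ∉ dom N H m := by
    rintro ⟨_, _, h2, _⟩
    have h := h2 ν
    rw [hy, pt_zero, pt_one, Complex.norm_real, Complex.norm_real, Real.norm_eq_abs,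
      Real.norm_eq_abs, abs_of_pos (sv_pos ν), abs_of_pos (by positivity), ← mul_assoc,
      mul_one_div_cancel hH.ne', one_mul] at h
    exact lt_irrefl _ h
  have huniv : dom N H m ≠ univ := fun h => hyD (h ▸ mem_univ y)
  obtain ⟨x, hx, hxd⟩ := exists_mem_frontier_infDist_compl_eq_dist hmem huniv
  have hdist : dist (zv N ν) y = 1 / H ν := by
    rw [EuclideanSpace.dist_eq, Real.sqrt_eq_iff_mul_self_eq
      (Finset.sum_nonneg fun _ _ => by positivity) (by positivity)]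
    rw [Finset.sum_eq_single (0 : Fin (N + 2))]
    · have : dist (zv N ν 0) (y 0) = 1 / H ν := by
        show dist (0 : ℂ) ((1 / H ν : ℝ) : ℂ) = _
        rw [dist_zero_left, Complex.norm_real, Real.norm_eq_abs, abs_of_pos (by positivity)]
      rw [this, sq]
    · intro i _ hi
      have : zv N ν i = y i := by
        revert hi
        refine Fin.cases ?_ (fun i => Fin.cases ?_ (fun j => ?_) i) i
        · intro h; exact absurd rfl h
        · intro _; rfl
        · intro _; rfl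
      rw [this, dist_self]
      simp
    · intro h; exact absurd (Finset.mem_univ _) h
  constructor
  · rw [← isClosed_frontier.notMem_iff_infDist_pos ⟨x, hx⟩]
    intro hfr
    rw [hopen.frontier_eq] at hfr
    exact hfr.2 hmem
  · calc infDist (zv N ν) (frontier (dom N H m)) ≤ dist (zv N ν) x := infDist_le_dist_of_mem hx
      _ = infDist (zv N ν) (dom N H m)ᶜ := hxd.symm
      _ ≤ dist (zv N ν) y := infDist_le_dist_of_mem hyD
      _ = 1 / H ν := hdist

/-- **No lower bound.** For every `N ≥ 0` and every function `Φ` with `Φ(x) → +∞` as `x → 0+`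
there are a bounded pseudoconvex Reinhardt domain `D ⊂ ℂ^{N+2}`, a point `z₀ ∈ D` and a boundary
point `ζ₀` with `N(ζ₀) = N` such that the estimate `k_D(z₀, z) ≥ Φ(d_D(z)) + C` fails near `ζ₀`
for every constant `C`. With `N = 0`, `Φ(x) = -(1/2) log x`, and with `N ≥ 1`,
`Φ(x) = (1/2) log (-log x)`, this refutes both estimates of the question. -/
theorem result (N : ℕ) (Φ : ℝ → ℝ) (hΦ : Tendsto Φ (𝓝[>] 0) atTop) :
    ∃ (D : Set (Cn (N + 2))) (z₀ ζ₀ : Cn (N + 2)),
      IsPseudoconvexReinhardtDomain D ∧ Bornology.IsBounded D ∧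
      z₀ ∈ D ∧ ζ₀ ∈ frontier D ∧ bigN D ζ₀ = N ∧
      ∀ U ∈ 𝓝 ζ₀, ∀ C : ℝ, ∃ z ∈ D ∩ U,
        kobayashiDist D z₀ z < ((Φ (infDist z (frontier D)) + C : ℝ) : EReal) := by
  -- choose the heights
  have hex : ∀ ν : ℕ, ∃ h : ℝ, 1 ≤ h ∧ ∀ x, 0 < x → x ≤ 1 / h →
      Real.log (2 * ((ν : ℝ) + 2)) + ν ≤ Φ x := by
    intro ν
    have h1 := hΦ.eventually_ge_atTop (Real.log (2 * ((ν : ℝ) + 2)) + ν)
    rw [eventually_nhdsWithin_iff, Metric.eventually_nhds_iff] at h1
    obtain ⟨ε, hε, hε'⟩ := h1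
    refine ⟨max 1 (2 / ε), le_max_left _ _, fun x hx hx' => ?_⟩
    apply hε' _ hx
    rw [dist_zero_right, Real.norm_eq_abs, abs_of_pos hx]
    have h2 : 2 / ε ≤ max 1 (2 / ε) := le_max_right _ _
    have h3 : 1 / max 1 (2 / ε) ≤ 1 / (2 / ε) := one_div_le_one_div_of_le (by positivity) h2
    have h4 : 1 / (2 / ε) = ε / 2 := by field_simp
    rw [h4] at h3
    linarith
  choose H hH1 hH2 using hex
  obtain ⟨m, hg⟩ := exists_exponents H hH1
  have hopen := isOpen_dom N hg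
  have hbase : pt N 0 0 (1 / 2) ∈ dom N H m :=
    base_mem N (by simp) (by norm_num) (by norm_num)
  refine ⟨dom N H m, pt N 0 0 (1 / 2), pt N 0 1 0,
    ⟨hopen, ⟨⟨_, hbase⟩, isPreconnected_dom N hg⟩, rotation_dom N H m, holConvex_dom N hg⟩,
    bounded_dom N H m, hbase, ?_, bigN_dom N H m, ?_⟩
  · rw [hopen.frontier_eq]
    refine ⟨?_, zeta_notMem N H m⟩
    exact mem_closure_of_tendsto (tendsto_zv N) (Eventually.of_forall fun ν => zv_mem N H m ν)
  · intro U hU C
    obtain ⟨k, hk⟩ := exists_nat_gt (-C)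
    obtain ⟨ν, hν1, hν2⟩ := ((tendsto_zv N).eventually_mem hU |>.and
      (eventually_ge_atTop k)).exists
    refine ⟨zv N ν, ⟨zv_mem N H m ν, hν1⟩, ?_⟩
    obtain ⟨d1, d2⟩ := dist_upper N hg ν
    have h1 := hH2 ν _ d1 d2
    have h2 := kob_upper N H m ν
    have h3 : (k : ℝ) ≤ ν := by exact_mod_cast hν2
    refine lt_of_le_of_lt h2 ?_
    rw [EReal.coe_lt_coe_iff]
    linarith

end Pool.Agent.Results.MP_32da07_an.NoLowerBound
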